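import Pool.Agent.H486.LG.Stm

/-!
# Project LG (helper486), part T4: complete sums over `SL(2, ℤ/N)`
-/

set_option autoImplicit false

open scoped MatrixGroups

namespace Pool.Agent.H399.LG

open Finset Pool.Agent.H486.LG

lemma psi_mul {g m N : ℕ} [NeZero N] [NeZero m] (hN : N = g * m) (t : ℤ) :
    ZMod.stdAddChar (N := N) (((g : ℤ) * t : ℤ) : ZMod N) =
      ZMod.stdAddChar (N := m) ((t : ℤ) : ZMod m) := by
  rw [ZMod.stdAddChar_coe, ZMod.stdAddChar_coe]
  congr 1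
  have hm : (m : ℂ) ≠ 0 := by exact_mod_cast NeZero.ne m
  have hg : (g : ℂ) ≠ 0 := by
    intro h
    have h1 : g = 0 := by exact_mod_cast h
    exact NeZero.ne N (by rw [hN, h1, zero_mul])
  have hN' : (N : ℂ) = g * m := by exact_mod_cast hN
  rw [hN']
  push_cast
  field_simp

lemma reindex {g m N : ℕ} [NeZero N] [NeZero m] (hN : N = g * m) (T : ZMod N → ℂ) :
    ∑ k ∈ univ.filter (fun k : ZMod N => Nat.gcd N k.val = g), T k =
      ∑ u : (ZMod m)ˣ, T ((g * (u : ZMod m).val : ℕ) : ZMod N) := by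
  have hg : 0 < g := by
    rcases Nat.eq_zero_or_pos g with h | h
    · exact absurd (by rw [hN, h, zero_mul]) (NeZero.ne N)
    · exact h
  have hm : 0 < m := NeZero.pos m
  have hlt : ∀ u : (ZMod m)ˣ, g * (u : ZMod m).val < N := by
    intro u
    rw [hN]
    exact Nat.mul_lt_mul_of_pos_left (ZMod.val_lt _) hg
  have hval : ∀ u : (ZMod m)ˣ, ((g * (u : ZMod m).val : ℕ) : ZMod N).val =
      g * (u : ZMod m).val := fun u => by
    rw [ZMod.val_natCast, Nat.mod_eq_of_lt (hlt u)]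
  symm
  refine Finset.sum_bij (fun u _ => ((g * (u : ZMod m).val : ℕ) : ZMod N)) ?_ ?_ ?_ ?_
  · intro u _
    rw [mem_filter]
    refine ⟨Finset.mem_univ _, ?_⟩
    rw [hval, hN, Nat.gcd_mul_left]
    have h1 : Nat.Coprime m (u : ZMod m).val := (ZMod.val_coe_unit_coprime u).symm
    rw [Nat.Coprime] at h1
    rw [h1, mul_one]
  · intro u _ u' _ h
    have h1 : g * (u : ZMod m).val = g * (u' : ZMod m).val := by
      rw [← hval u, ← hval u']
      exact congrArg ZMod.val h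
    have h2 := Nat.eq_of_mul_eq_mul_left hg h1
    exact Units.ext (ZMod.val_injective m h2)
  · intro k hk
    rw [mem_filter] at hk
    have hk2 := hk.2
    have hgk : g ∣ k.val := by
      rw [← hk2]
      exact Nat.gcd_dvd_right _ _
    obtain ⟨K, hK⟩ := hgk
    have hKm : K < m := by
      have h1 : g * K < g * m := by
        rw [← hK, ← hN]
        exact ZMod.val_lt k
      exact Nat.lt_of_mul_lt_mul_left h1
    have hcop : Nat.Coprime K m := by
      rw [hK, hN, Nat.gcd_mul_left] at hk2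
      have h1 : g * Nat.gcd m K = g * 1 := by rw [hk2, mul_one]
      have h2 := Nat.eq_of_mul_eq_mul_left hg h1
      rw [Nat.Coprime, Nat.gcd_comm]
      exact h2
    refine ⟨ZMod.unitOfCoprime K hcop, Finset.mem_univ _, ?_⟩
    rw [ZMod.coe_unitOfCoprime, ZMod.val_natCast, Nat.mod_eq_of_lt hKm, ← hK,
      ZMod.natCast_zmod_val]
  · intro u _
    rfl

/-- detection of the determinant -/
lemma detect (N : ℕ) [NeZero N] (y : Matrix (Fin 2) (Fin 2) (ZMod N)) :
    (N : ℂ) * KG N y = ∑ k : ZMod N, ZMod.stdAddChar (N := N) (-k) *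
      ∑ x : Matrix (Fin 2) (Fin 2) (ZMod N), ZMod.stdAddChar (N := N)
        (k * x.det + Matrix.trace (x * y)) := by
  have h1 : ∑ k : ZMod N, ZMod.stdAddChar (N := N) (-k) *
      ∑ x : Matrix (Fin 2) (Fin 2) (ZMod N), ZMod.stdAddChar (N := N)
        (k * x.det + Matrix.trace (x * y)) =
      ∑ x : Matrix (Fin 2) (Fin 2) (ZMod N), (if x.det - 1 = 0 then (N : ℂ) else 0) *
        ZMod.stdAddChar (N := N) (Matrix.trace (x * y)) := by
    simp only [Finset.mul_sum]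
    rw [Finset.sum_comm]
    refine Finset.sum_congr rfl fun x _ => ?_
    have h2 := AddChar.sum_mulShift (ψ := ZMod.stdAddChar (N := N)) (x.det - 1)
      (ZMod.isPrimitive_stdAddChar N)
    rw [ZMod.card] at h2
    have h3 : (if x.det - 1 = 0 then (N : ℂ) else 0) =
        ((if x.det - 1 = 0 then N else 0 : ℕ) : ℂ) := by
      split_ifs
      · rfl
      · exact Nat.cast_zero.symm
    rw [h3, ← h2, Finset.sum_mul]
    refine Finset.sum_congr rfl fun k _ => ?_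
    rw [← AddChar.map_add_eq_mul, ← AddChar.map_add_eq_mul]
    congr 1
    ring
  rw [h1]
  unfold KG
  rw [Finset.mul_sum]
  have h4 : ∑ x : Matrix (Fin 2) (Fin 2) (ZMod N), (if x.det - 1 = 0 then (N : ℂ) else 0) *
        ZMod.stdAddChar (N := N) (Matrix.trace (x * y)) =
      ∑ x ∈ univ.filter (fun x : Matrix (Fin 2) (Fin 2) (ZMod N) => x.det = 1),
        (N : ℂ) * ZMod.stdAddChar (N := N) (Matrix.trace (x * y)) := by
    rw [Finset.sum_filter]
    refine Finset.sum_congr rfl fun x _ => ?_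
    by_cases h : x.det = 1
    · rw [if_pos h, if_pos (by rw [h, sub_self])]
    · rw [if_neg h, if_neg (fun h' => h (sub_eq_zero.1 h')), zero_mul]
  rw [h4]
  refine Finset.sum_bij (fun x _ => (x : Matrix (Fin 2) (Fin 2) (ZMod N))) ?_ ?_ ?_ ?_
  · intro x _
    rw [mem_filter]
    exact ⟨Finset.mem_univ _, x.2⟩
  · intro x _ x' _ h
    exact Subtype.ext h
  · intro x hx
    exact ⟨⟨x, (mem_filter.1 hx).2⟩, Finset.mem_univ _, rfl⟩
  · intro x _
    rfl

lemma ell_pos (N : ℕ) [NeZero N] (y : Matrix (Fin 2) (Fin 2) (ZMod N)) : 0 < ell N y :=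
  Nat.gcd_pos_of_pos_left _ (NeZero.pos N)

lemma dvd_of_ell {N : ℕ} {y : Matrix (Fin 2) (Fin 2) (ZMod N)} {g : ℕ} (h : g ∣ ell N y)
    (i j : Fin 2) : g ∣ (y i j).val := by
  unfold ell at h
  have h1 := h.trans (Nat.gcd_dvd_right _ _)
  have h00 := h1.trans (Nat.gcd_dvd_left _ _)
  have h2 := h1.trans (Nat.gcd_dvd_right _ _)
  have h01 := h2.trans (Nat.gcd_dvd_left _ _)
  have h3 := h2.trans (Nat.gcd_dvd_right _ _)
  have h10 := h3.trans (Nat.gcd_dvd_left _ _)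
  have h11 := h3.trans (Nat.gcd_dvd_right _ _)
  fin_cases i <;> fin_cases j
  · exact h00
  · exact h01
  · exact h10
  · exact h11

/-- the contribution of one divisor -/
lemma part (h1 : S_KQ) (h2 : S_KL) {g m N : ℕ} [NeZero N] [NeZero m] (hN : N = g * m)
    (y : Matrix (Fin 2) (Fin 2) (ZMod N)) (hg : g ∣ ell N y) :
    ‖∑ k ∈ univ.filter (fun k : ZMod N => Nat.gcd N k.val = g), ZMod.stdAddChar (N := N) (-k) *
      ∑ x : Matrix (Fin 2) (Fin 2) (ZMod N), ZMod.stdAddChar (N := N)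
        (k * x.det + Matrix.trace (x * y))‖ ≤
      (N : ℝ) ^ 2 * ((g : ℝ) ^ 2 * (2 * (m.divisors.card : ℝ) * (m : ℝ) ^ (3 / 4 : ℝ))) := by
  rw [reindex hN]
  obtain ⟨Y, hY⟩ : ∃ Y : Matrix (Fin 2) (Fin 2) ℤ, Y = fun i j => (((y i j).val / g : ℕ) : ℤ) :=
    ⟨_, rfl⟩
  have hyY : y = Y.map (fun t : ℤ => (((g : ℤ) * t : ℤ) : ZMod N)) := by
    ext i j
    rw [Matrix.map_apply, hY]
    simp only
    have h3 := Nat.mul_div_cancel' (dvd_of_ell hg i j)
    have h4 : ((g : ℤ) * (((y i j).val / g : ℕ) : ℤ) : ℤ) = (((y i j).val : ℕ) : ℤ) := by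
      rw [← Nat.cast_mul, h3]
    rw [h4, Int.cast_natCast, ZMod.natCast_zmod_val]
  have key : ∀ u : (ZMod m)ˣ,
      ZMod.stdAddChar (N := N) (-((g * (u : ZMod m).val : ℕ) : ZMod N)) *
      ∑ x : Matrix (Fin 2) (Fin 2) (ZMod N), ZMod.stdAddChar (N := N)
        (((g * (u : ZMod m).val : ℕ) : ZMod N) * x.det + Matrix.trace (x * y)) =
      (N : ℂ) ^ 2 * (g : ℂ) ^ 2 * ZMod.stdAddChar (N := m)
        (((-1 : (ZMod m)ˣ) : ZMod m) * (u : ZMod m) +
          ((-Y.det : ℤ) : ZMod m) * ((u⁻¹ : (ZMod m)ˣ) : ZMod m)) := by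
    intro u
    obtain ⟨K, hK⟩ : ∃ K : ℤ, K = ((u : ZMod m).val : ℤ) := ⟨_, rfl⟩
    obtain ⟨K', hK'⟩ : ∃ K' : ℤ, K' = (((u⁻¹ : (ZMod m)ˣ) : ZMod m).val : ℤ) := ⟨_, rfl⟩
    have hKu : ((K : ℤ) : ZMod m) = (u : ZMod m) := by
      rw [hK, Int.cast_natCast, ZMod.natCast_zmod_val]
    have hKu' : ((K' : ℤ) : ZMod m) = ((u⁻¹ : (ZMod m)ˣ) : ZMod m) := by
      rw [hK', Int.cast_natCast, ZMod.natCast_zmod_val]
    have hdvd : (m : ℤ) ∣ K * K' - 1 := by
      rw [← ZMod.intCast_zmod_eq_zero_iff_dvd]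
      push_cast
      rw [hKu, hKu', Units.mul_inv, sub_self]
    have hk : ((g * (u : ZMod m).val : ℕ) : ZMod N) = (((g : ℤ) * K : ℤ) : ZMod N) := by
      rw [hK]
      push_cast
      rfl
    have h3 := (h1 N).1 g m K K' Y hN hdvd
    rw [← hyY] at h3
    rw [hk, h3]
    have h4 : -(((g : ℤ) * K : ℤ) : ZMod N) = (((g : ℤ) * (-K) : ℤ) : ZMod N) := by
      push_cast
      ring
    have h5 : ((-((g : ℤ) * K' * Y.det) : ℤ) : ZMod N) =
        (((g : ℤ) * (-Y.det * K') : ℤ) : ZMod N) := by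
      push_cast
      ring
    rw [h4, h5, psi_mul hN, psi_mul hN]
    have h6 : (((-1 : (ZMod m)ˣ) : ZMod m) * (u : ZMod m) +
          ((-Y.det : ℤ) : ZMod m) * ((u⁻¹ : (ZMod m)ˣ) : ZMod m)) =
        ((-K : ℤ) : ZMod m) + ((-Y.det * K' : ℤ) : ZMod m) := by
      rw [← hKu, ← hKu']
      push_cast
      ring
    rw [h6, AddChar.map_add_eq_mul]
    ring
  rw [Finset.sum_congr rfl fun u _ => key u, ← Finset.mul_sum, norm_mul, norm_mul, norm_pow,
    norm_pow, Complex.norm_natCast, Complex.norm_natCast, mul_assoc]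
  refine mul_le_mul_of_nonneg_left (mul_le_mul_of_nonneg_left ?_ (by positivity)) (by positivity)
  exact h2 m (-1) _

theorem t4 (h1 : S_KQ) (h2 : S_KL) : S_KY := by
  intro N _ y
  have hN0 : 0 < N := NeZero.pos N
  have hNR : (0 : ℝ) < N := by exact_mod_cast hN0
  have hd0 : (0 : ℝ) ≤ N.divisors.card := Nat.cast_nonneg _
  have he0 : 0 < ell N y := ell_pos N y
  have heR : (0 : ℝ) < ell N y := by exact_mod_cast he0
  obtain ⟨T, hT⟩ : ∃ T : ZMod N → ℂ, T = fun k => ZMod.stdAddChar (N := N) (-k) *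
      ∑ x : Matrix (Fin 2) (Fin 2) (ZMod N), ZMod.stdAddChar (N := N)
        (k * x.det + Matrix.trace (x * y)) := ⟨_, rfl⟩
  have e1 : (N : ℂ) * KG N y = ∑ g ∈ N.divisors,
      ∑ k ∈ univ.filter (fun k : ZMod N => Nat.gcd N k.val = g), T k := by
    rw [detect, ← Finset.sum_fiberwise_of_maps_to (s := univ) (t := N.divisors)
      (g := fun k : ZMod N => Nat.gcd N k.val)]
    · rw [hT]
    · intro k _
      rw [Nat.mem_divisors]
      exact ⟨Nat.gcd_dvd_left _ _, hN0.ne'⟩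
  have e2 : ∀ g ∈ N.divisors,
      ‖∑ k ∈ univ.filter (fun k : ZMod N => Nat.gcd N k.val = g), T k‖ ≤
        (N : ℝ) ^ 2 * (2 * (N.divisors.card : ℝ) * (N : ℝ) ^ (3 / 4 : ℝ) *
          (ell N y : ℝ) ^ (5 / 4 : ℝ)) := by
    intro g hg
    rw [Nat.mem_divisors] at hg
    obtain ⟨m, hm⟩ := hg.1
    by_cases hge : g ∣ ell N y
    · have hg0 : 0 < g := Nat.pos_of_dvd_of_pos hg.1 hN0
      have hm0 : 0 < m := by
        rcases Nat.eq_zero_or_pos m with h | h
        · exact absurd (by rw [hm, h, mul_zero]) hN0.ne'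
        · exact h
      have : NeZero m := ⟨hm0.ne'⟩
      have h3 := part h1 h2 hm y hge
      rw [hT]
      refine h3.trans (mul_le_mul_of_nonneg_left ?_ (by positivity))
      have hgR : (0 : ℝ) < g := by exact_mod_cast hg0
      have hmR : (0 : ℝ) < m := by exact_mod_cast hm0
      have hNgm : (N : ℝ) = g * m := by exact_mod_cast hm
      have hle : (g : ℝ) ≤ ell N y := by exact_mod_cast Nat.le_of_dvd he0 hge
      have hdm : (m.divisors.card : ℝ) ≤ N.divisors.card := by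
        exact_mod_cast Finset.card_le_card (Nat.divisors_subset_of_dvd hN0.ne' ⟨g, by
          rw [hm, mul_comm]⟩)
      have h4 : (g : ℝ) ^ 2 * (m : ℝ) ^ (3 / 4 : ℝ) =
          (N : ℝ) ^ (3 / 4 : ℝ) * (g : ℝ) ^ (5 / 4 : ℝ) := by
        rw [hNgm, Real.mul_rpow hgR.le hmR.le]
        have h5 : (g : ℝ) ^ 2 = (g : ℝ) ^ (3 / 4 : ℝ) * (g : ℝ) ^ (5 / 4 : ℝ) := by
          rw [← Real.rpow_add hgR, ← Real.rpow_natCast]
          norm_num
        rw [h5]
        ring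
      have h6 : (g : ℝ) ^ (5 / 4 : ℝ) ≤ (ell N y : ℝ) ^ (5 / 4 : ℝ) :=
        Real.rpow_le_rpow hgR.le hle (by norm_num)
      calc (g : ℝ) ^ 2 * (2 * (m.divisors.card : ℝ) * (m : ℝ) ^ (3 / 4 : ℝ))
          = 2 * (m.divisors.card : ℝ) * ((g : ℝ) ^ 2 * (m : ℝ) ^ (3 / 4 : ℝ)) := by ring
        _ = 2 * (m.divisors.card : ℝ) * ((N : ℝ) ^ (3 / 4 : ℝ) * (g : ℝ) ^ (5 / 4 : ℝ)) := by
            rw [h4]
        _ ≤ 2 * (N.divisors.card : ℝ) * ((N : ℝ) ^ (3 / 4 : ℝ) *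
              (ell N y : ℝ) ^ (5 / 4 : ℝ)) := by
            refine mul_le_mul ?_ ?_ (by positivity) (by positivity)
            · exact mul_le_mul_of_nonneg_left hdm (by norm_num)
            · exact mul_le_mul_of_nonneg_left h6 (by positivity)
        _ = 2 * (N.divisors.card : ℝ) * (N : ℝ) ^ (3 / 4 : ℝ) *
              (ell N y : ℝ) ^ (5 / 4 : ℝ) := by ring
    · rw [Finset.sum_eq_zero, norm_zero]
      · positivity
      · intro k hk
        rw [mem_filter] at hk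
        rw [hT]
        simp only
        rw [(h1 N).2 k y (by rw [hk.2]; exact hge), mul_zero]
  have e3 : (N : ℝ) * ‖KG N y‖ ≤ (N.divisors.card : ℝ) * ((N : ℝ) ^ 2 *
      (2 * (N.divisors.card : ℝ) * (N : ℝ) ^ (3 / 4 : ℝ) * (ell N y : ℝ) ^ (5 / 4 : ℝ))) := by
    have h3 : (N : ℝ) * ‖KG N y‖ = ‖(N : ℂ) * KG N y‖ := by
      rw [norm_mul, Complex.norm_natCast]
    rw [h3, e1]
    refine (norm_sum_le _ _).trans ?_
    refine (Finset.sum_le_sum e2).trans ?_
    rw [Finset.sum_const, nsmul_eq_mul]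
  have e4 : (N : ℝ) ^ (7 / 4 : ℝ) = N * (N : ℝ) ^ (3 / 4 : ℝ) := by
    have h5 : (7 / 4 : ℝ) = 1 + 3 / 4 := by norm_num
    rw [h5, Real.rpow_add hNR, Real.rpow_one]
  rw [e4]
  refine le_of_mul_le_mul_left ?_ hNR
  refine e3.trans (le_of_eq ?_)
  ring

end Pool.Agent.H399.LG
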